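import Mathlib

/-! # Perfect algebras with an identity in separated variables: the exchange argument -/

namespace Pool.Agent.Helper591.Lvov

open Finset Equiv

universe u v

variable {F : Type u} [Field F] {C : Type v} [Ring C] [Algebra F C]

/-- word functions: every variable stands between two elements of `S` -/
inductive Wd (S : Submodule F C) : (n : ℕ) → ((Fin n → C) → C) → Prop
  | zero (z : C) (hz : z ∈ S) : Wd S 0 (fun _ => z)
  | right {n : ℕ} {G : (Fin n → C) → C} {a b : C} (hG : Wd S n G) (ha : a ∈ S) (hb : b ∈ S) :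
      Wd S (n + 1) (fun y => G (fun i => y i.succ) * (a * y 0 * b))
  | left {n : ℕ} {G : (Fin n → C) → C} {a b : C} (hG : Wd S n G) (ha : a ∈ S) (hb : b ∈ S) :
      Wd S (n + 1) (fun y => (a * y 0 * b) * G (fun i => y i.succ))

/-- `∑ κ_σ G(y_{σ 1}, …)` -/
def act {n : ℕ} (κ : Perm (Fin n) → F) (G : (Fin n → C) → C) (y : Fin n → C) : C :=
  ∑ σ, κ σ • G (fun i => y (σ i))

/-- sums of bimultiplications by elements of `S` -/
def Bi (S : Submodule F C) : Submodule F (C → C) :=
  Submodule.span F {K | ∃ a ∈ S, ∃ b ∈ S, K = fun x => a * x * b}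

section words

variable {S : Submodule F C} (hS : ∀ x ∈ S, ∀ y ∈ S, x * y ∈ S)

include hS

theorem Wd.mem {n : ℕ} {G : (Fin n → C) → C} (h : Wd S n G) :
    ∀ y : Fin n → C, (∀ i, y i ∈ S) → G y ∈ S := by
  induction h with
  | zero z hz => intro y _; exact hz
  | right hG ha hb ih =>
    intro y hy
    exact hS _ (ih _ fun i => hy _) _ (hS _ (hS _ ha _ (hy 0)) _ hb)
  | left hG ha hb ih =>
    intro y hy
    exact hS _ (hS _ (hS _ ha _ (hy 0)) _ hb) _ (ih _ fun i => hy _)

theorem Wd.lmul {n : ℕ} {G : (Fin n → C) → C} (h : Wd S n G) :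
    ∀ r ∈ S, Wd S n (fun y => r * G y) := by
  induction h with
  | zero z hz => intro r hr; exact Wd.zero _ (hS _ hr _ hz)
  | right hG ha hb ih =>
    intro r hr
    have := Wd.right (ih r hr) ha hb
    simpa only [mul_assoc] using this
  | left hG ha hb ih =>
    intro r hr
    have := Wd.left hG (hS _ hr _ ha) hb
    simpa only [mul_assoc] using this

theorem Wd.rmul {n : ℕ} {G : (Fin n → C) → C} (h : Wd S n G) :
    ∀ r ∈ S, Wd S n (fun y => G y * r) := by
  induction h with
  | zero z hz => intro r hr; exact Wd.zero _ (hS _ hz _ hr)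
  | right hG ha hb ih =>
    intro r hr
    have := Wd.right hG ha (hS _ hb _ hr)
    simpa only [mul_assoc] using this
  | left hG ha hb ih =>
    intro r hr
    have := Wd.left (ih r hr) ha hb
    simpa only [mul_assoc] using this

theorem Wd.slot {n : ℕ} {G : (Fin n → C) → C} (h : Wd S n G) :
    ∀ (i : Fin n) (y : Fin n → C), (∀ i, y i ∈ S) →
      ∃ α ∈ S, ∃ β ∈ S, ∀ x, G (Function.update y i x) = α * x * β := by
  induction h with
  | zero z hz => intro i; exact i.elim0
  | @right n G a b hG ha hb ih =>
    intro i y hy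
    refine Fin.cases ?_ (fun j => ?_) i
    · refine ⟨G (fun i => y i.succ) * a, hS _ (hG.mem hS _ fun i => hy _) _ ha, b, hb, ?_⟩
      intro x
      simp [mul_assoc]
    · obtain ⟨α, hα, β, hβ, h⟩ := ih j (fun i => y i.succ) (fun i => hy _)
      refine ⟨α, hα, β * (a * y 0 * b), hS _ hβ _ (hS _ (hS _ ha _ (hy 0)) _ hb), ?_⟩
      intro x
      have h1 : (fun i : Fin n => Function.update y j.succ x i.succ) =
          Function.update (fun i : Fin n => y i.succ) j x := by
        funext i
        by_cases hi : i = j
        · subst hi; simp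
        · rw [Function.update_of_ne hi, Function.update_of_ne (by simpa using hi)]
      simp only
      rw [h1, h x, Function.update_of_ne (Fin.succ_ne_zero j).symm]
      simp [mul_assoc]
  | @left n G a b hG ha hb ih =>
    intro i y hy
    refine Fin.cases ?_ (fun j => ?_) i
    · refine ⟨a, ha, b * G (fun i => y i.succ), hS _ hb _ (hG.mem hS _ fun i => hy _), ?_⟩
      intro x
      simp [mul_assoc]
    · obtain ⟨α, hα, β, hβ, h⟩ := ih j (fun i => y i.succ) (fun i => hy _)
      refine ⟨(a * y 0 * b) * α, hS _ (hS _ (hS _ ha _ (hy 0)) _ hb) _ hα, β, hβ, ?_⟩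
      intro x
      have h1 : (fun i : Fin n => Function.update y j.succ x i.succ) =
          Function.update (fun i : Fin n => y i.succ) j x := by
        funext i
        by_cases hi : i = j
        · subst hi; simp
        · rw [Function.update_of_ne hi, Function.update_of_ne (by simpa using hi)]
      simp only
      rw [h1, h x, Function.update_of_ne (Fin.succ_ne_zero j).symm]
      simp [mul_assoc]

theorem act_mem {n : ℕ} (κ : Perm (Fin n) → F) {G : (Fin n → C) → C} (h : Wd S n G)
    (y : Fin n → C) (hy : ∀ i, y i ∈ S) : act κ G y ∈ S :=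
  Submodule.sum_mem _ fun _ _ => Submodule.smul_mem _ _ (h.mem hS _ fun _ => hy _)

omit hS [Ring C] in
theorem update_comp {n : ℕ} (σ : Perm (Fin n)) (y : Fin n → C) (i : Fin n) (x : C) :
    (fun k => Function.update y i x (σ k)) = Function.update (fun k => y (σ k)) (σ.symm i) x := by
  funext k
  by_cases h : k = σ.symm i
  · subst h; simp
  · rw [Function.update_of_ne h, Function.update_of_ne]
    intro h'
    apply h
    rw [← h']; simp

theorem act_slot {n : ℕ} (κ : Perm (Fin n) → F) {G : (Fin n → C) → C} (h : Wd S n G)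
    (y : Fin n → C) (hy : ∀ i, y i ∈ S) (i : Fin n) :
    (fun x => act κ G (Function.update y i x)) ∈ Bi S := by
  have h1 : (fun x => act κ G (Function.update y i x)) =
      ∑ σ, κ σ • (fun x => G (fun k => Function.update y i x (σ k))) := by
    funext x
    simp [act, Finset.sum_apply]
  rw [h1]
  apply Submodule.sum_mem
  intro σ _
  apply Submodule.smul_mem
  apply Submodule.subset_span
  obtain ⟨α, hα, β, hβ, h2⟩ := h.slot hS (σ.symm i) (fun k => y (σ k)) (fun k => hy _)
  refine ⟨α, hα, β, hβ, ?_⟩
  funext x
  rw [update_comp, h2]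

theorem Bi.mem {K : C → C} (hK : K ∈ Bi S) (x : C) (hx : x ∈ S) : K x ∈ S := by
  unfold Bi at hK
  induction hK using Submodule.span_induction with
  | mem K h =>
    obtain ⟨a, ha, b, hb, rfl⟩ := h
    exact hS _ (hS _ ha _ hx) _ hb
  | zero => exact S.zero_mem
  | add K L _ _ h1 h2 => exact S.add_mem h1 h2
  | smul c K _ h1 => exact S.smul_mem _ h1

omit hS in
theorem Bi.add {K : C → C} (hK : K ∈ Bi S) (x y : C) : K (x + y) = K x + K y := by
  unfold Bi at hK
  induction hK using Submodule.span_induction with
  | mem K h =>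
    obtain ⟨a, ha, b, hb, rfl⟩ := h
    simp only [mul_add, add_mul]
  | zero => simp
  | add K L _ _ h1 h2 =>
    simp only [Pi.add_apply, h1, h2]
    abel
  | smul c K _ h1 => simp only [Pi.smul_apply, h1, smul_add]

omit hS in
theorem Bi.smul {K : C → C} (hK : K ∈ Bi S) (c : F) (x : C) : K (c • x) = c • K x := by
  unfold Bi at hK
  induction hK using Submodule.span_induction with
  | mem K h =>
    obtain ⟨a, ha, b, hb, rfl⟩ := h
    simp only [mul_smul_comm, smul_mul_assoc]
  | zero => simp
  | add K L _ _ h1 h2 => simp only [Pi.add_apply, h1, h2, smul_add]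
  | smul d K _ h1 => simp only [Pi.smul_apply, h1, smul_comm c d]

theorem Bi.lmul {K : C → C} (hK : K ∈ Bi S) (r : C) (hr : r ∈ S) :
    (fun x => r * K x) ∈ Bi S := by
  unfold Bi at hK
  induction hK using Submodule.span_induction with
  | mem K h =>
    obtain ⟨a, ha, b, hb, rfl⟩ := h
    apply Submodule.subset_span
    exact ⟨r * a, hS _ hr _ ha, b, hb, by funext x; simp [mul_assoc]⟩
  | zero =>
    have : (fun x : C => r * (0 : C → C) x) = 0 := by funext x; simp
    rw [this]
    exact Submodule.zero_mem _
  | add K L _ _ h1 h2 =>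
    have : (fun x : C => r * (K + L) x) = (fun x => r * K x) + (fun x => r * L x) := by
      funext x; simp [mul_add]
    rw [this]
    exact Submodule.add_mem _ h1 h2
  | smul c K _ h1 =>
    have : (fun x : C => r * (c • K) x) = c • (fun x => r * K x) := by
      funext x; simp
    rw [this]
    exact Submodule.smul_mem _ _ h1

end words

section exchange

variable {m : ℕ} (κ : Perm (Fin (m + 1)) → F)

/-- the part of `κ` fixing the first letter -/
def k0 : Perm (Fin m) → F := fun e => κ (Perm.decomposeFin.symm (0, e))

/-- the part of `κ` sending the first letter to the letter `i` of the others -/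
def ks (i : Fin m) : Perm (Fin m) → F := fun e => κ (Perm.decomposeFin.symm (i.succ, e))

omit [Ring C] in
theorem cons0 (e : Perm (Fin m)) (t : C) (y : Fin m → C) :
    (fun i : Fin m => (Fin.cons t y : Fin (m + 1) → C) (Perm.decomposeFin.symm (0, e) i.succ)) =
      fun i => y (e i) := by
  funext i
  rw [Perm.decomposeFin_symm_apply_succ]
  simp

omit [Ring C] in
theorem conss (e : Perm (Fin m)) (t : C) (y : Fin m → C) (j : Fin m) :
    (fun i : Fin m => (Fin.cons t y : Fin (m + 1) → C)
      (Perm.decomposeFin.symm (j.succ, e) i.succ)) =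
      fun i => Function.update y j t (e i) := by
  funext i
  rw [Perm.decomposeFin_symm_apply_succ]
  by_cases h : e i = j
  · rw [h]; simp
  · rw [swap_apply_of_ne_of_ne (Fin.succ_ne_zero _) (by simpa using h), Fin.cons_succ,
      Function.update_of_ne h]

theorem act_right (G : (Fin m → C) → C) (a b t : C) (y : Fin m → C) :
    act κ (fun y => G (fun i => y i.succ) * (a * y 0 * b)) (Fin.cons t y) =
      act (k0 κ) G y * (a * t * b) +
        ∑ i, act (ks κ i) G (Function.update y i t) * (a * y i * b) := by
  unfold act
  rw [← Equiv.sum_comp Perm.decomposeFin.symm, Fintype.sum_prod_type, Fin.sum_univ_succ]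
  congr 1
  · rw [Finset.sum_mul]
    apply Finset.sum_congr rfl
    intro e _
    beta_reduce
    rw [cons0, Perm.decomposeFin_symm_apply_zero, Fin.cons_zero, smul_mul_assoc]
    rfl
  · apply Finset.sum_congr rfl
    intro j _
    rw [Finset.sum_mul]
    apply Finset.sum_congr rfl
    intro e _
    beta_reduce
    rw [conss, Perm.decomposeFin_symm_apply_zero, Fin.cons_succ, smul_mul_assoc]
    rfl

theorem act_left (G : (Fin m → C) → C) (a b t : C) (y : Fin m → C) :
    act κ (fun y => (a * y 0 * b) * G (fun i => y i.succ)) (Fin.cons t y) =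
      (a * t * b) * act (k0 κ) G y +
        ∑ i, (a * y i * b) * act (ks κ i) G (Function.update y i t) := by
  unfold act
  rw [← Equiv.sum_comp Perm.decomposeFin.symm, Fintype.sum_prod_type, Fin.sum_univ_succ]
  congr 1
  · rw [Finset.mul_sum]
    apply Finset.sum_congr rfl
    intro e _
    beta_reduce
    rw [cons0, Perm.decomposeFin_symm_apply_zero, Fin.cons_zero, mul_smul_comm]
    rfl
  · apply Finset.sum_congr rfl
    intro j _
    rw [Finset.mul_sum]
    apply Finset.sum_congr rfl
    intro e _
    beta_reduce
    rw [conss, Perm.decomposeFin_symm_apply_zero, Fin.cons_succ, mul_smul_comm]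
    rfl

variable {κ} {S I : Submodule F C}

theorem exchR
    (hκ : ∀ G, Wd S (m + 1) G → ∀ y, (∀ i, y i ∈ S) → act κ G y ∈ I)
    {G : (Fin m → C) → C} (hG : Wd S m G) {K : C → C} (hK : K ∈ Bi S) (y : Fin m → C)
    (hy : ∀ i, y i ∈ S) (t : C) (ht : t ∈ S) :
    act (k0 κ) G y * K t + ∑ i, act (ks κ i) G (Function.update y i t) * K (y i) ∈ I := by
  unfold Bi at hK
  induction hK using Submodule.span_induction with
  | mem K h =>
    obtain ⟨a, ha, b, hb, rfl⟩ := h
    simp only
    rw [← act_right]
    apply hκ _ (Wd.right hG ha hb)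
    intro i
    refine Fin.cases ?_ (fun j => ?_) i
    · exact ht
    · exact hy j
  | zero => simp
  | add K L _ _ h1 h2 =>
    have := I.add_mem h1 h2
    simp only [Pi.add_apply, mul_add, Finset.sum_add_distrib]
    convert this using 1
    abel
  | smul c K _ h1 =>
    have := I.smul_mem c h1
    simpa only [Pi.smul_apply, mul_smul_comm, smul_add, Finset.smul_sum] using this

theorem exchL
    (hκ : ∀ G, Wd S (m + 1) G → ∀ y, (∀ i, y i ∈ S) → act κ G y ∈ I)
    {G : (Fin m → C) → C} (hG : Wd S m G) {K : C → C} (hK : K ∈ Bi S) (y : Fin m → C)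
    (hy : ∀ i, y i ∈ S) (t : C) (ht : t ∈ S) :
    K t * act (k0 κ) G y + ∑ i, K (y i) * act (ks κ i) G (Function.update y i t) ∈ I := by
  unfold Bi at hK
  induction hK using Submodule.span_induction with
  | mem K h =>
    obtain ⟨a, ha, b, hb, rfl⟩ := h
    simp only
    rw [← act_left]
    apply hκ _ (Wd.left hG ha hb)
    intro i
    refine Fin.cases ?_ (fun j => ?_) i
    · exact ht
    · exact hy j
  | zero => simp
  | add K L _ _ h1 h2 =>
    have := I.add_mem h1 h2
    simp only [Pi.add_apply, add_mul, Finset.sum_add_distrib]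
    convert this using 1
    abel
  | smul c K _ h1 =>
    have := I.smul_mem c h1
    simpa only [Pi.smul_apply, smul_mul_assoc, smul_add, Finset.smul_sum] using this

/-- admissible substitutions -/
def Adm (S : Submodule F C) (P : C → C) : Prop :=
  (∀ x ∈ S, P x ∈ S) ∧ ∀ K ∈ Bi S, (fun x => K (P x)) ∈ Bi S

theorem exchA (hS : ∀ x ∈ S, ∀ y ∈ S, x * y ∈ S)
    (hκ : ∀ G, Wd S (m + 1) G → ∀ y, (∀ i, y i ∈ S) → act κ G y ∈ I)
    {G H : (Fin m → C) → C} (hG : Wd S m G) (hH : Wd S m H) {P Q : C → C} (hP : Adm S P)
    (hQ : Adm S Q) (y u : Fin m → C) (hy : ∀ i, y i ∈ S) (hu : ∀ i, u i ∈ S) :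
    act (k0 κ) G y * (∑ j, act (ks κ j) H (Function.update u j (Q (P (u j))))) -
      (∑ i, act (ks κ i) G (Function.update y i (P (Q (y i))))) * act (k0 κ) H u ∈ I := by
  have h1 : ∀ j, act (k0 κ) G y * act (ks κ j) H (Function.update u j (Q (P (u j)))) +
      ∑ i, act (ks κ i) G (Function.update y i (P (u j))) *
        act (ks κ j) H (Function.update u j (Q (y i))) ∈ I := by
    intro j
    exact exchR hκ hG (hQ.2 _ (act_slot hS (ks κ j) hH u hu j)) y hy (P (u j))
      (hP.1 _ (hu j))
  have h2 : ∀ i, act (ks κ i) G (Function.update y i (P (Q (y i)))) * act (k0 κ) H u +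
      ∑ j, act (ks κ i) G (Function.update y i (P (u j))) *
        act (ks κ j) H (Function.update u j (Q (y i))) ∈ I := by
    intro i
    exact exchL hκ hH (hP.2 _ (act_slot hS (ks κ i) hG y hy i)) u hu (Q (y i))
      (hQ.1 _ (hy i))
  have h3 := I.sub_mem (I.sum_mem (t := univ) fun j _ => h1 j)
    (I.sum_mem (t := univ) fun i _ => h2 i)
  simp only [Finset.sum_add_distrib] at h3
  rw [Finset.sum_comm (f := fun j i => act (ks κ i) G (Function.update y i (P (u j))) *
        act (ks κ j) H (Function.update u j (Q (y i))))] at h3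
  rw [add_sub_add_right_eq_sub] at h3
  rw [Finset.mul_sum, Finset.sum_mul]
  exact h3

end exchange

section trace

variable {m : ℕ} {κ : Perm (Fin (m + 1)) → F} {S I : Submodule F C}

/-- `∑_j (H∘κ_j)(u : j → T u_j)` -/
def Psi (κ : Perm (Fin (m + 1)) → F) (T : C → C) (H : (Fin m → C) → C) (u : Fin m → C) : C :=
  ∑ j, act (ks κ j) H (Function.update u j (T (u j)))

theorem adm_id : Adm S (fun x : C => x) := ⟨fun _ h => h, fun _ h => h⟩

theorem adm_mul (hS : ∀ x ∈ S, ∀ y ∈ S, x * y ∈ S) (c : C) (hc : c ∈ S) (z : C) (hz : z ∈ S) :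
    Adm S (fun x : C => c * x * z) := by
  refine ⟨fun x hx => hS _ (hS _ hc _ hx) _ hz, fun K hK => ?_⟩
  unfold Bi at hK
  induction hK using Submodule.span_induction with
  | mem K h =>
    obtain ⟨a, ha, b, hb, rfl⟩ := h
    apply Submodule.subset_span
    exact ⟨a * c, hS _ ha _ hc, z * b, hS _ hz _ hb, by funext x; simp [mul_assoc]⟩
  | zero => exact Submodule.zero_mem _
  | add K L _ _ h1 h2 => exact Submodule.add_mem _ h1 h2
  | smul c K _ h1 => exact Submodule.smul_mem _ _ h1

theorem adm_lmul (hS : ∀ x ∈ S, ∀ y ∈ S, x * y ∈ S) (c : C) (hc : c ∈ S) :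
    Adm S (fun x : C => c * x) := by
  refine ⟨fun x hx => hS _ hc _ hx, fun K hK => ?_⟩
  unfold Bi at hK
  induction hK using Submodule.span_induction with
  | mem K h =>
    obtain ⟨a, ha, b, hb, rfl⟩ := h
    apply Submodule.subset_span
    exact ⟨a * c, hS _ ha _ hc, b, hb, by funext x; simp [mul_assoc]⟩
  | zero => exact Submodule.zero_mem _
  | add K L _ _ h1 h2 => exact Submodule.add_mem _ h1 h2
  | smul c K _ h1 => exact Submodule.smul_mem _ _ h1

theorem Psi_add (hS : ∀ x ∈ S, ∀ y ∈ S, x * y ∈ S) {H : (Fin m → C) → C} (hH : Wd S m H)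
    (u : Fin m → C) (hu : ∀ i, u i ∈ S) (T T' : C → C) :
    Psi κ (fun x => T x + T' x) H u = Psi κ T H u + Psi κ T' H u := by
  unfold Psi
  rw [← Finset.sum_add_distrib]
  apply Finset.sum_congr rfl
  intro j _
  exact Bi.add (act_slot hS (ks κ j) hH u hu j) _ _

theorem Psi_smul (hS : ∀ x ∈ S, ∀ y ∈ S, x * y ∈ S) {H : (Fin m → C) → C} (hH : Wd S m H)
    (u : Fin m → C) (hu : ∀ i, u i ∈ S) (c : F) (T : C → C) :
    Psi κ (fun x => c • T x) H u = c • Psi κ T H u := by
  unfold Psi
  rw [Finset.smul_sum]
  apply Finset.sum_congr rfl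
  intro j _
  exact Bi.smul (act_slot hS (ks κ j) hH u hu j) _ _

theorem Psi_comm (hS : ∀ x ∈ S, ∀ y ∈ S, x * y ∈ S)
    (hκ : ∀ G, Wd S (m + 1) G → ∀ y, (∀ i, y i ∈ S) → act κ G y ∈ I)
    {G H : (Fin m → C) → C} (hG : Wd S m G) (hH : Wd S m H)
    (y u : Fin m → C) (hy : ∀ i, y i ∈ S) (hu : ∀ i, u i ∈ S) {a b z : C} (ha : a ∈ S)
    (hb : b ∈ S) (hz : z ∈ S) :
    act (k0 κ) G y * Psi κ (fun x => (a * b - b * a) * x * z) H u ∈ I := by
  have h1 := exchA hS hκ hG hH (adm_lmul hS a ha) (adm_mul hS b hb z hz) y u hy hu
  have h2 := exchA hS hκ hG hH (adm_mul hS (a * b) (hS _ ha _ hb) z hz) adm_id y u hy hu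
  have h3 := I.sub_mem h2 h1
  have e1 : Psi κ (fun x => (a * b - b * a) * x * z) H u =
      Psi κ (fun x => a * b * x * z) H u - Psi κ (fun x => b * (a * x) * z) H u := by
    rw [eq_sub_iff_add_eq, ← Psi_add hS hH u hu]
    congr 1
    funext x
    noncomm_ring
  rw [e1, mul_sub]
  have e2 : ∀ i, a * (b * y i * z) = a * b * y i * z := fun i => by noncomm_ring
  simp only [e2] at h3
  convert h3 using 1
  unfold Psi
  abel

end trace

/-- The exchange argument: in a perfect algebra `S`, if a nonzero combination of permutations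
kills (modulo an ideal) all words with separated variables, then the ideal is everything. -/
theorem main {S : Submodule F C} (hS : ∀ x ∈ S, ∀ y ∈ S, x * y ∈ S)
    (hperf : S ≤ Submodule.span F {x | ∃ a ∈ S, ∃ b ∈ S, x = a * b - b * a}) :
    ∀ (n : ℕ) (κ : Perm (Fin n) → F), κ ≠ 0 → ∀ I : Submodule F C,
      (∀ x ∈ S, ∀ y ∈ I, x * y ∈ I) → (∀ x ∈ S, ∀ y ∈ I, y * x ∈ I) →
      (∀ G, Wd S n G → ∀ y, (∀ i, y i ∈ S) → act κ G y ∈ I) → S ≤ I := by
  intro n
  induction n with
  | zero =>
    intro κ hκ0 I hI1 hI2 hκ z hz
    have h := hκ _ (Wd.zero z hz) (fun i => i.elim0) (fun i => i.elim0)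
    have h1 : κ 1 ≠ 0 := by
      intro h1
      apply hκ0
      funext σ
      rw [Subsingleton.elim σ 1, h1]
      rfl
    have h2 : act κ (fun _ => z) (fun i : Fin 0 => (i.elim0 : C)) = κ 1 • z := by
      unfold act
      rw [Fintype.sum_eq_single 1]
      intro σ hσ
      exact absurd (Subsingleton.elim σ 1) hσ
    rw [h2] at h
    have h3 := I.smul_mem (κ 1)⁻¹ h
    rwa [smul_smul, inv_mul_cancel₀ h1, one_smul] at h3
  | succ m ih =>
    intro κ1 hκ10 I hI1 hI2 hκ1
    -- renaming of variables
    obtain ⟨κ, hk0, hκ⟩ : ∃ κ : Perm (Fin (m + 1)) → F, k0 κ ≠ 0 ∧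
        (∀ G, Wd S (m + 1) G → ∀ y, (∀ i, y i ∈ S) → act κ G y ∈ I) := by
      obtain ⟨σ0, hσ0⟩ : ∃ σ0, κ1 σ0 ≠ 0 := by
        by_contra h
        push Not at h
        exact hκ10 (funext h)
      set p := σ0 0 with hp
      refine ⟨fun σ => κ1 (swap 0 p * σ), ?_, ?_⟩
      · intro h
        apply hσ0
        have h1 := congrFun h (Perm.decomposeFin σ0).2
        simp only [k0, Pi.zero_apply] at h1
        rw [← h1]
        congr 1
        have h2 : (Perm.decomposeFin σ0).1 = p := by
          have := Perm.decomposeFin_symm_apply_zero (Perm.decomposeFin σ0).1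
            (Perm.decomposeFin σ0).2
          rw [← this]
          simp [hp]
        have h3 : σ0 = Perm.decomposeFin.symm (p, (Perm.decomposeFin σ0).2) := by
          rw [← h2]
          simp
        conv_lhs => rw [h3]
        ext i
        refine Fin.cases ?_ (fun j => ?_) i
        · rw [Perm.mul_apply, Perm.decomposeFin_symm_apply_zero,
            Perm.decomposeFin_symm_apply_zero, swap_apply_left]
        · rw [Perm.mul_apply, Perm.decomposeFin_symm_apply_succ,
            Perm.decomposeFin_symm_apply_succ, swap_self, Equiv.refl_apply]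
      · intro G hG y hy
        have h := hκ1 G hG (fun i => y (swap 0 p i)) (fun i => hy _)
        have h1 : act (fun σ => κ1 (swap 0 p * σ)) G y =
            act κ1 G (fun i => y (swap 0 p i)) := by
          unfold act
          rw [← Equiv.sum_comp (Equiv.mulLeft (swap 0 p))]
          apply Finset.sum_congr rfl
          intro σ _
          simp only [Equiv.coe_mulLeft]
          rw [← mul_assoc, swap_mul_self, one_mul]
          rfl
        rw [h1]
        exact h
    -- the ideal of values of `κ_0`
    set P0 : Submodule F C := Submodule.span F {x | ∃ G, Wd S m G ∧ ∃ y : Fin m → C,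
      (∀ i, y i ∈ S) ∧ x = act (k0 κ) G y} with hP0
    have hP0S : S ≤ P0 := by
      apply ih (k0 κ) hk0 P0
      · intro x hx y hy
        rw [hP0] at hy
        induction hy using Submodule.span_induction with
        | mem y h =>
          obtain ⟨G, hG, v, hv, rfl⟩ := h
          apply Submodule.subset_span
          refine ⟨_, hG.lmul hS x hx, v, hv, ?_⟩
          simp [act, Finset.mul_sum]
        | zero => simp
        | add y z _ _ h1 h2 => rw [mul_add]; exact P0.add_mem h1 h2
        | smul c y _ h1 => rw [mul_smul_comm]; exact P0.smul_mem c h1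
      · intro x hx y hy
        rw [hP0] at hy
        induction hy using Submodule.span_induction with
        | mem y h =>
          obtain ⟨G, hG, v, hv, rfl⟩ := h
          apply Submodule.subset_span
          refine ⟨_, hG.rmul hS x hx, v, hv, ?_⟩
          simp [act, Finset.sum_mul]
        | zero => simp
        | add y z _ _ h1 h2 => rw [add_mul]; exact P0.add_mem h1 h2
        | smul c y _ h1 => rw [smul_mul_assoc]; exact P0.smul_mem c h1
      · intro G hG y hy
        exact Submodule.subset_span ⟨G, hG, y, hy, rfl⟩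
    -- every `Psi` is annihilated by `S`
    have star : ∀ r ∈ S, ∀ T ∈ Bi S, ∀ H, Wd S m H → ∀ u : Fin m → C, (∀ i, u i ∈ S) →
        r * Psi κ T H u ∈ I := by
      intro r hr T hT H hH u hu
      unfold Bi at hT
      induction hT using Submodule.span_induction with
      | mem T h =>
        obtain ⟨c, hc, z, hz, rfl⟩ := h
        have hr' := hP0S hr
        rw [hP0] at hr'
        clear hr
        induction hr' using Submodule.span_induction with
        | mem r h =>
          obtain ⟨G, hG, y, hy, rfl⟩ := h
          have hc' := hperf hc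
          clear hc
          induction hc' using Submodule.span_induction with
          | mem c h =>
            obtain ⟨a, ha, b, hb, rfl⟩ := h
            exact Psi_comm hS hκ hG hH y u hy hu ha hb hz
          | zero =>
            have : Psi κ (fun x : C => 0 * x * z) H u = 0 := by
              have h := Psi_smul (κ := κ) hS hH u hu (0 : F) (fun x : C => 0 * x * z)
              simpa using h
            rw [this]; simp
          | add c c' _ _ h1 h2 =>
            have : Psi κ (fun x : C => (c + c') * x * z) H u =
                Psi κ (fun x : C => c * x * z) H u + Psi κ (fun x : C => c' * x * z) H u := by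
              rw [← Psi_add hS hH u hu]
              congr 1
              funext x
              simp [add_mul]
            rw [this, mul_add]
            exact I.add_mem h1 h2
          | smul t c _ h1 =>
            have : Psi κ (fun x : C => (t • c) * x * z) H u =
                t • Psi κ (fun x : C => c * x * z) H u := by
              rw [← Psi_smul hS hH u hu]
              congr 1
              funext x
              simp
            rw [this, mul_smul_comm]
            exact I.smul_mem _ h1
        | zero => simp
        | add r s _ _ h1 h2 => rw [add_mul]; exact I.add_mem h1 h2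
        | smul t r _ h1 => rw [smul_mul_assoc]; exact I.smul_mem _ h1
      | zero =>
        have : Psi κ (0 : C → C) H u = 0 := by
          have h := Psi_smul (κ := κ) hS hH u hu (0 : F) (0 : C → C)
          rw [zero_smul] at h
          rw [← h]
          congr 1
          funext x
          simp
        rw [this]; simp
      | add T T' _ _ h1 h2 =>
        have : Psi κ (T + T') H u = Psi κ T H u + Psi κ T' H u := Psi_add hS hH u hu T T'
        rw [this, mul_add]
        exact I.add_mem h1 h2
      | smul t T _ h1 =>
        have : Psi κ (t • T) H u = t • Psi κ T H u := Psi_smul hS hH u hu t T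
        rw [this, mul_smul_comm]
        exact I.smul_mem _ h1
    -- the rank-one trick
    have rank : ∀ r ∈ S, ∀ a ∈ S, ∀ b ∈ S, ∀ H, Wd S m H → ∀ y : Fin m → C, (∀ i, y i ∈ S) →
        ∀ G, Wd S m G → ∀ w : Fin m → C, (∀ i, w i ∈ S) →
        r * (act (k0 κ) H y * (a * act (k0 κ) G w * b)) ∈ I := by
      intro r hr a ha b hb H hH y hy G hG w hw
      have hX : act (k0 κ) G w ∈ S := act_mem hS (k0 κ) hG w hw
      have hK : (fun x : C => a * x * b) ∈ Bi S := Submodule.subset_span ⟨a, ha, b, hb, rfl⟩
      -- (1)
      have s1 : ∀ l, r * Psi κ (fun t => act (ks κ l) G (Function.update w l t)) H y *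
          (a * w l * b) ∈ I := by
        intro l
        apply hI2 _ (hS _ (hS _ ha _ (hw l)) _ hb)
        exact star r hr _ (act_slot hS (ks κ l) hG w hw l) H hH y hy
      -- (2)
      have s2 : ∀ M ∈ Bi S, ∀ t ∈ S, M (act (k0 κ) G w) * (a * t * b) +
          ∑ l, M (act (ks κ l) G (Function.update w l t)) * (a * w l * b) ∈ I := by
        intro M hM t ht
        unfold Bi at hM
        induction hM using Submodule.span_induction with
        | mem M h =>
          obtain ⟨α, hα, β, hβ, rfl⟩ := h
          have h1 := exchR hκ hG (Bi.lmul hS hK β hβ) w hw t ht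
          have h2 := hI1 α hα _ h1
          simpa only [mul_add, Finset.mul_sum, mul_assoc] using h2
        | zero => simp
        | add M N _ _ h1 h2 =>
          have := I.add_mem h1 h2
          simp only [Pi.add_apply, add_mul, Finset.sum_add_distrib]
          convert this using 1
          abel
        | smul c M _ h1 =>
          have := I.smul_mem c h1
          simpa only [Pi.smul_apply, smul_mul_assoc, smul_add, Finset.smul_sum] using this
      have s3 : ∀ i, act (ks κ i) H (Function.update y i (act (k0 κ) G w)) * (a * y i * b) +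
          ∑ l, act (ks κ i) H (Function.update y i (act (ks κ l) G (Function.update w l (y i)))) *
            (a * w l * b) ∈ I := fun i =>
        s2 _ (act_slot hS (ks κ i) hH y hy i) (y i) (hy i)
      have s4 : ∑ l, r * Psi κ (fun t => act (ks κ l) G (Function.update w l t)) H y *
          (a * w l * b) ∈ I := I.sum_mem fun l _ => s1 l
      have s5 : r * ∑ i, (act (ks κ i) H (Function.update y i (act (k0 κ) G w)) * (a * y i * b) +
          ∑ l, act (ks κ i) H (Function.update y i (act (ks κ l) G (Function.update w l (y i)))) *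
            (a * w l * b)) ∈ I := hI1 r hr _ (I.sum_mem fun i _ => s3 i)
      have s6 : r * (act (k0 κ) H y * (a * act (k0 κ) G w * b) +
          ∑ i, act (ks κ i) H (Function.update y i (act (k0 κ) G w)) * (a * y i * b)) ∈ I :=
        hI1 r hr _ (exchR hκ hH hK y hy _ hX)
      have s7 : r * (act (k0 κ) H y * (a * act (k0 κ) G w * b)) =
          r * (act (k0 κ) H y * (a * act (k0 κ) G w * b) +
            ∑ i, act (ks κ i) H (Function.update y i (act (k0 κ) G w)) * (a * y i * b)) -
          r * (∑ i, (act (ks κ i) H (Function.update y i (act (k0 κ) G w)) * (a * y i * b) +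
          ∑ l, act (ks κ i) H (Function.update y i (act (ks κ l) G (Function.update w l (y i)))) *
            (a * w l * b))) +
          ∑ l, r * Psi κ (fun t => act (ks κ l) G (Function.update w l t)) H y *
            (a * w l * b) := by
        have e1 : ∑ l, r * Psi κ (fun t => act (ks κ l) G (Function.update w l t)) H y *
            (a * w l * b) = r * ∑ i, ∑ l, act (ks κ i) H
              (Function.update y i (act (ks κ l) G (Function.update w l (y i)))) *
                (a * w l * b) := by
          rw [Finset.sum_comm, Finset.mul_sum]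
          apply Finset.sum_congr rfl
          intro l _
          rw [Psi, mul_assoc, Finset.sum_mul]
        rw [e1, Finset.sum_add_distrib, mul_add, mul_add]
        abel
      rw [s7]
      exact I.add_mem (I.sub_mem s6 s5) s4
    -- the conclusion
    have last : ∀ r ∈ S, ∀ s ∈ S, ∀ a ∈ S, ∀ t ∈ S, ∀ b ∈ S, r * (s * (a * t * b)) ∈ I := by
      intro r hr s hs a ha t ht b hb
      have hs' := hP0S hs
      rw [hP0] at hs'
      clear hs
      induction hs' using Submodule.span_induction with
      | mem s h =>
        obtain ⟨H, hH, y, hy, rfl⟩ := h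
        have ht' := hP0S ht
        rw [hP0] at ht'
        clear ht
        induction ht' using Submodule.span_induction with
        | mem t h =>
          obtain ⟨G, hG, w, hw, rfl⟩ := h
          exact rank r hr a ha b hb H hH y hy G hG w hw
        | zero => simp
        | add t t' _ _ h1 h2 =>
          simp only [mul_add, add_mul]
          exact I.add_mem h1 h2
        | smul c t _ h1 =>
          simp only [mul_smul_comm, smul_mul_assoc]
          exact I.smul_mem _ h1
      | zero => simp
      | add s s' _ _ h1 h2 =>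
        simp only [mul_add, add_mul]
        exact I.add_mem h1 h2
      | smul c s _ h1 =>
        simp only [mul_smul_comm, smul_mul_assoc]
        exact I.smul_mem _ h1
    -- `S = S^5`
    have hsq : S ≤ S * S := by
      refine hperf.trans (Submodule.span_le.2 ?_)
      rintro x ⟨a, ha, b, hb, rfl⟩
      exact (S * S).sub_mem (Submodule.mul_mem_mul ha hb) (Submodule.mul_mem_mul hb ha)
    have h5 : S ≤ S * (S * (S * S * S)) := by
      calc S ≤ S * S := hsq
        _ ≤ S * (S * S) := mul_le_mul' le_rfl hsq
        _ ≤ S * (S * (S * S)) := mul_le_mul' le_rfl (mul_le_mul' le_rfl hsq)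
        _ ≤ S * (S * (S * S * S)) := mul_le_mul' le_rfl (mul_le_mul' le_rfl
            (mul_le_mul' hsq le_rfl))
    refine h5.trans ?_
    rw [Submodule.mul_le]
    intro r hr x hx
    refine Submodule.mul_induction_on hx ?_ ?_
    · intro s hs x hx
      refine Submodule.mul_induction_on hx ?_ ?_
      · intro x hx b hb
        refine Submodule.mul_induction_on hx ?_ ?_
        · intro a ha t ht
          exact last r hr s hs a ha t ht b hb
        · intro x y h1 h2
          rw [add_mul, mul_add, mul_add]
          exact I.add_mem h1 h2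
      · intro x y h1 h2
        rw [mul_add, mul_add]
        exact I.add_mem h1 h2
    · intro x y h1 h2
      rw [mul_add]
      exact I.add_mem h1 h2

end Pool.Agent.Helper591.Lvov
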