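import Pool.Agent.Helper591.Lvov.Core
import Pool.Agent.H67.PI.Mat

/-! # Regev's count: a combination of permutations killing all words with separated variables -/

namespace Pool.Agent.Helper591.Lvov

open Finset Equiv Pool.Agent.H67.PI

universe u v

variable {F : Type u} [Field F] {C : Type v} [Ring C] [Algebra F C]

/-- letters: one extra letter, and for each variable the letter itself (colour `1`) and its two
neighbours (colours `0`, `2`) -/
abbrev L (n : ℕ) : Type := Option (Fin 3 × Fin n)

/-- the embedding of letters -/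
def up {n : ℕ} : L n → L (n + 1) := Option.map (Prod.map id Fin.succ)

theorem up_inj {n : ℕ} : Function.Injective (up (n := n)) :=
  Option.map_injective (Function.injective_id.prodMap (Fin.succ_injective _))

/-- values of letters -/
def val {n : ℕ} (z : C) (a b y : Fin n → C) : L n → C
  | none => z
  | some (c, i) => if c = 0 then a i else if c = 1 then y i else b i

/-- the word of a pattern -/
def word : (n : ℕ) → (Fin n → Bool) → List (L n)
  | 0, _ => [none]
  | n + 1, s =>
    if s 0 then (word n fun i => s i.succ).map up ++ [some (0, 0), some (1, 0), some (2, 0)]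
    else [some (0, 0), some (1, 0), some (2, 0)] ++ (word n fun i => s i.succ).map up

theorem word_succ (n : ℕ) (s : Fin (n + 1) → Bool) : word (n + 1) s =
    if s 0 then (word n fun i => s i.succ).map up ++ [some (0, 0), some (1, 0), some (2, 0)]
    else [some (0, 0), some (1, 0), some (2, 0)] ++ (word n fun i => s i.succ).map up := rfl

theorem up_ne {n : ℕ} (c : Fin 3) (l : L n) : up l ≠ some (c, 0) := by
  rcases l with _ | ⟨c', i⟩
  · simp [up]
  · simp [up, Prod.map]

theorem word_mem : ∀ (n : ℕ) (s : Fin n → Bool) (l : L n), l ∈ word n s := by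
  intro n
  induction n with
  | zero =>
    intro s l
    rcases l with _ | ⟨c, i⟩
    · simp [word]
    · exact i.elim0
  | succ n ih =>
    intro s l
    have h : l ∈ (word n fun i => s i.succ).map up ∨
        l ∈ [some (0, 0), some (1, 0), some ((2 : Fin 3), (0 : Fin (n + 1)))] := by
      rcases l with _ | ⟨c, i⟩
      · left
        exact List.mem_map.2 ⟨none, ih _ _, rfl⟩
      · refine Fin.cases ?_ (fun j => ?_) i
        · right
          fin_cases c <;> simp
        · left
          exact List.mem_map.2 ⟨some (c, j), ih _ _, rfl⟩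
    rw [word_succ]
    split_ifs
    · exact List.mem_append.2 h
    · exact List.mem_append.2 h.symm

theorem word_nodup : ∀ (n : ℕ) (s : Fin n → Bool), (word n s).Nodup := by
  intro n
  induction n with
  | zero => intro s; simp [word]
  | succ n ih =>
    intro s
    have h1 : ((word n fun i => s i.succ).map up).Nodup := (ih _).map up_inj
    have h2 : ([some (0, 0), some (1, 0), some ((2 : Fin 3), (0 : Fin (n + 1)))] :
        List (L (n + 1))).Nodup := by simp
    have h3 : List.Disjoint ((word n fun i => s i.succ).map up)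
        [some (0, 0), some (1, 0), some ((2 : Fin 3), (0 : Fin (n + 1)))] := by
      intro l hl hl'
      obtain ⟨l', -, rfl⟩ := List.mem_map.1 hl
      simp only [List.mem_cons, List.not_mem_nil, or_false] at hl'
      rcases hl' with h | h | h <;> exact up_ne _ _ h
    rw [word_succ]
    split_ifs
    · exact h1.append h2 h3
    · exact h2.append h1 h3.symm

omit [Ring C] in
theorem val_up {n : ℕ} (z : C) (a0 b0 : C) (a b : Fin n → C) (y : Fin (n + 1) → C) (l : L n) :
    val z (Fin.cons a0 a) (Fin.cons b0 b) y (up l) = val z a b (fun i => y i.succ) l := by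
  rcases l with _ | ⟨c, i⟩
  · rfl
  · simp [up, val]

theorem Wd.exists_word {S : Submodule F C} {n : ℕ} {G : (Fin n → C) → C} (h : Wd S n G) :
    ∃ s : Fin n → Bool, ∃ z ∈ S, ∃ a b : Fin n → C, (∀ i, a i ∈ S) ∧ (∀ i, b i ∈ S) ∧
      ∀ y, G y = ((word n s).map (val z a b y)).prod := by
  induction h with
  | zero z hz =>
    refine ⟨fun _ => true, z, hz, fun i => i.elim0, fun i => i.elim0, fun i => i.elim0,
      fun i => i.elim0, fun y => ?_⟩
    simp [word, val]
  | @right n G a0 b0 hG ha hb ih =>
    obtain ⟨s, z, hz, a, b, ha', hb', h⟩ := ih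
    refine ⟨Fin.cons true s, z, hz, Fin.cons a0 a, Fin.cons b0 b, ?_, ?_, fun y => ?_⟩
    · intro i
      refine Fin.cases ?_ (fun j => ?_) i
      · exact ha
      · exact ha' j
    · intro i
      refine Fin.cases ?_ (fun j => ?_) i
      · exact hb
      · exact hb' j
    · beta_reduce
      rw [h, word_succ]
      simp only [Fin.cons_zero, Fin.cons_succ, if_true, List.map_append, List.prod_append,
        List.map_map]
      congr 1
      · congr 2
        funext l
        exact (val_up z a0 b0 a b y l).symm
      · simp [val, mul_assoc]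
  | @left n G a0 b0 hG ha hb ih =>
    obtain ⟨s, z, hz, a, b, ha', hb', h⟩ := ih
    refine ⟨Fin.cons false s, z, hz, Fin.cons a0 a, Fin.cons b0 b, ?_, ?_, fun y => ?_⟩
    · intro i
      refine Fin.cases ?_ (fun j => ?_) i
      · exact ha
      · exact ha' j
    · intro i
      refine Fin.cases ?_ (fun j => ?_) i
      · exact hb
      · exact hb' j
    · beta_reduce
      rw [h, word_succ]
      simp only [Fin.cons_zero, Fin.cons_succ, Bool.false_eq_true, if_false, List.map_append,
        List.prod_append, List.map_map]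
      congr 1
      · simp [val, mul_assoc]
      · congr 2
        funext l
        exact (val_up z a0 b0 a b y l).symm

/-- renaming of the variables -/
def lp {n : ℕ} (σ : Perm (Fin n)) : L n → L n
  | none => none
  | some (c, i) => if c = 1 then some (c, σ i) else some (c, i)

theorem lp_lp {n : ℕ} (σ : Perm (Fin n)) (l : L n) : lp σ (lp σ.symm l) = l := by
  rcases l with _ | ⟨c, i⟩
  · rfl
  · by_cases h : c = 1 <;> simp [lp, h]

theorem lp_surj {n : ℕ} (σ : Perm (Fin n)) : Function.Surjective (lp σ) := fun l =>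
  ⟨_, lp_lp σ l⟩

theorem lp_inj {n : ℕ} (σ : Perm (Fin n)) : Function.Injective (lp σ) :=
  Finite.injective_iff_surjective.2 (lp_surj σ)

omit [Ring C] in
theorem val_lp {n : ℕ} (z : C) (a b y : Fin n → C) (σ : Perm (Fin n)) (l : L n) :
    val z a b (fun i => y (σ i)) l = val z a b y (lp σ l) := by
  rcases l with _ | ⟨c, i⟩
  · rfl
  · by_cases h : c = 1
    · subst h
      simp [val, lp]
    · simp [val, lp, h]

theorem val_mem {S : Submodule F C} {n : ℕ} {z : C} {a b y : Fin n → C} (hz : z ∈ S)
    (ha : ∀ i, a i ∈ S) (hb : ∀ i, b i ∈ S) (hy : ∀ i, y i ∈ S) (l : L n) :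
    val z a b y l ∈ S := by
  rcases l with _ | ⟨c, i⟩
  · exact hz
  · simp only [val]
    split_ifs
    · exact ha i
    · exact hy i
    · exact hb i

theorem exists_kappa {S : Submodule F C} (hS : ∀ x ∈ S, ∀ y ∈ S, x * y ∈ S) {d : ℕ}
    (c : Perm (Fin d) → F) (hc1 : c 1 = 1)
    (hc : ∀ a : Fin d → C, (∀ i, a i ∈ S) → ∑ τ, c τ • (List.ofFn fun k => a (τ k)).prod = 0) :
    ∃ (n : ℕ) (κ : Perm (Fin n) → F), κ ≠ 0 ∧
      ∀ G, Wd S n G → ∀ y, (∀ i, y i ∈ S) → act κ G y = 0 := by
  classical
  obtain ⟨n, hn0, hn⟩ := exists_m (2 * ((d + 1) ^ 3 * (d + 1) ^ 3)) ((d + 1) * (d + 1))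
  set N := Fintype.card (L n) with hN
  have hN' : N = 3 * n + 1 := by
    rw [hN]
    simp
  let e : L n ≃ Fin N := Fintype.equivFin (L n)
  have hred := fun w : List (Fin N) => reduce S hS c hc1 hc w
  choose R hR1 hR2 using hred
  set W : (Fin n → Bool) → Perm (Fin n) → List (Fin N) := fun s σ =>
    ((word n s).map (lp σ)).map e with hW
  have hWp : ∀ s σ, (W s σ).Perm (univ : Finset (Fin N)).toList := by
    intro s σ
    rw [List.perm_ext_iff_of_nodup]
    · intro j
      simp only [Finset.mem_toList, mem_univ, iff_true, hW]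
      obtain ⟨l, hl⟩ := lp_surj σ (e.symm j)
      exact List.mem_map.2 ⟨lp σ l, List.mem_map.2 ⟨l, word_mem n s l, rfl⟩, by rw [hl]; simp⟩
    · exact ((word_nodup n s).map (lp_inj σ)).map e.injective
    · exact Finset.nodup_toList _
  let E := (Fin n → Bool) × (Fin N → Fin (d + 1)) × (Fin N → Fin (d + 1))
  let Φ : (Perm (Fin n) → F) →ₗ[F] (E → F) :=
    { toFun := fun κ t => ∑ σ, κ σ * R (W t.1 σ) (decode univ t.2.1 t.2.2)
      map_add' := by
        intro α β
        funext t
        simp only [Pi.add_apply, add_mul, Finset.sum_add_distrib]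
      map_smul' := by
        intro t α
        funext e
        simp only [Pi.smul_apply, smul_eq_mul, RingHom.id_apply, Finset.mul_sum, mul_assoc] }
  have hrank : Module.finrank F (E → F) < Module.finrank F (Perm (Fin n) → F) := by
    rw [Module.finrank_fintype_fun_eq_card, Module.finrank_fintype_fun_eq_card,
      Fintype.card_perm, Fintype.card_fin]
    refine lt_of_eq_of_lt ?_ hn
    simp only [E, Fintype.card_prod, Fintype.card_fin, Fintype.card_pi,
      Finset.prod_const, Finset.card_univ, Fintype.card_bool]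
    rw [hN']
    generalize d + 1 = D
    rw [mul_pow, mul_pow, pow_succ, pow_mul]
    ring
  have hker := LinearMap.ker_ne_bot_of_finrank_lt (f := Φ) hrank
  obtain ⟨κ, hκ1, hκ0⟩ := Submodule.exists_mem_ne_zero_of_ne_bot hker
  have hκ : ∀ t : E, ∑ σ, κ σ * R (W t.1 σ) (decode univ t.2.1 t.2.2) = 0 := fun t =>
    congrFun (LinearMap.mem_ker.1 hκ1) t
  refine ⟨n, κ, hκ0, ?_⟩
  have hρ : ∀ s, ∑ σ, κ σ • R (W s σ) = 0 := by
    intro s
    ext v
    rw [Finsupp.finsetSum_apply, Finsupp.coe_zero, Pi.zero_apply]
    by_cases hv : v.Perm (univ : Finset (Fin N)).toList ∧ Good d v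
    · obtain ⟨χ, ψ, hχψ⟩ := decode_surj univ v hv.1 hv.2
      have := hκ (s, χ, ψ)
      simp only [hχψ] at this
      rw [← this]
      apply Finset.sum_congr rfl
      intro σ _
      rw [Finsupp.smul_apply, smul_eq_mul]
    · apply Finset.sum_eq_zero
      intro σ _
      have : R (W s σ) v = 0 := by
        by_contra hne
        have h1 := hR1 (W s σ) v (Finsupp.mem_support_iff.2 hne)
        exact hv ⟨h1.1.trans (hWp s σ), h1.2⟩
      rw [Finsupp.smul_apply, this, smul_zero]
  intro G hG y hy
  obtain ⟨s, z, hz, a, b, ha, hb, h⟩ := hG.exists_word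
  have h1 : ∀ σ : Perm (Fin n), G (fun i => y (σ i)) =
      Finsupp.linearCombination F
        (fun v : List (Fin N) => (v.map fun j => val z a b y (e.symm j)).prod) (R (W s σ)) := by
    intro σ
    rw [h, ← hR2 (W s σ) _ (fun j => val_mem hz ha hb hy _)]
    simp only [hW, List.map_map]
    congr 2
    funext l
    simp [val_lp]
  unfold act
  simp only [h1, ← map_smul]
  rw [← map_sum, hρ, map_zero]

/-- A perfect algebra over a field satisfying a multilinear identity is zero. -/
theorem field_case {S : Submodule F C} (hS : ∀ x ∈ S, ∀ y ∈ S, x * y ∈ S)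
    (hperf : S ≤ Submodule.span F {x | ∃ a ∈ S, ∃ b ∈ S, x = a * b - b * a}) {d : ℕ}
    (c : Perm (Fin d) → F) (hc1 : c 1 = 1)
    (hc : ∀ a : Fin d → C, (∀ i, a i ∈ S) → ∑ τ, c τ • (List.ofFn fun k => a (τ k)).prod = 0) :
    S = ⊥ := by
  obtain ⟨n, κ, hκ0, hκ⟩ := exists_kappa hS c hc1 hc
  rw [eq_bot_iff]
  refine main hS hperf n κ hκ0 ⊥ ?_ ?_ ?_
  · intro x _ y hy
    rw [Submodule.mem_bot] at hy ⊢
    rw [hy, mul_zero]
  · intro x _ y hy
    rw [Submodule.mem_bot] at hy ⊢
    rw [hy, zero_mul]
  · intro G hG y hy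
    rw [Submodule.mem_bot]
    exact hκ G hG y hy

end Pool.Agent.Helper591.Lvov
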