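import Pool.Agent.Helper591.Lvov.Kappa
import Pool.Agent.H67.PI.Lin

/-! # From rings to algebras over prime fields -/

namespace Pool.Agent.Helper591.Lvov

open Finset Equiv Pool.Agent.H67.PI TensorProduct

universe u v

/-- a nonempty word as an element of the free monoid -/
def toFM {n : ℕ} (w : FreeSemigroup (Fin n)) : FreeMonoid (Fin n) :=
  FreeMonoid.ofList (w.head :: w.tail)

theorem toFM_inj {n : ℕ} : Function.Injective (toFM (n := n)) := by
  intro w w' h
  have h1 : (w.head :: w.tail) = (w'.head :: w'.tail) := FreeMonoid.ofList.injective h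
  rw [List.cons.injEq] at h1
  exact FreeSemigroup.ext h1.1 h1.2

section

variable (F : Type) [Field F] {R : Type u} [NonUnitalRing R] {A : Type u} [Ring A]
  (j : R →ₙ+* A)

/-- the image of `R` in the algebra `F ⊗ A` -/
noncomputable def emb (x : R) : F ⊗[ℤ] A := (1 : F) ⊗ₜ[ℤ] (j x)

theorem emb_mul (x y : R) : emb F j (x * y) = emb F j x * emb F j y := by
  unfold emb
  rw [Algebra.TensorProduct.tmul_mul_tmul, mul_one, map_mul]

theorem emb_add (x y : R) : emb F j (x + y) = emb F j x + emb F j y := by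
  unfold emb
  rw [map_add, TensorProduct.tmul_add]

theorem emb_zero : emb F j (0 : R) = 0 := by
  unfold emb
  rw [map_zero, TensorProduct.tmul_zero]

theorem emb_neg (x : R) : emb F j (-x) = -emb F j x := by
  unfold emb
  rw [map_neg, TensorProduct.tmul_neg]

theorem emb_zsmul (c : ℤ) (x : R) : emb F j (c • x) = (c : F) • emb F j x := by
  unfold emb
  rw [map_zsmul, TensorProduct.tmul_smul, TensorProduct.smul_tmul',
    TensorProduct.smul_tmul', zsmul_eq_mul, mul_one, smul_eq_mul, mul_one]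

theorem prod_emb {n : ℕ} (r : Fin n → R) (w : FreeSemigroup (Fin n)) :
    ((toFM w).toList.map fun i => emb F j (r i)).prod = emb F j (FreeSemigroup.lift r w) := by
  induction w using FreeSemigroup.recOnMul with
  | ih1 x =>
    change emb F j (r x) * 1 = emb F j (FreeSemigroup.lift r (FreeSemigroup.of x))
    rw [mul_one, FreeSemigroup.lift_of]
  | ih2 x y _ h2 =>
    rw [FreeSemigroup.lift_of_mul, emb_mul, ← h2]
    simp [toFM, FreeSemigroup.of]

/-- The polynomial over `F` of a polynomial over `ℤ` without constant term. -/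
noncomputable def polyF {n : ℕ} (f : FreeSemigroup (Fin n) →₀ ℤ) : FreeAlgebra F (Fin n) :=
  (FreeAlgebra.basisFreeMonoid F (Fin n)).repr.symm
    ((f.mapRange (fun c : ℤ => (c : F)) Int.cast_zero).mapDomain toFM)

theorem polyF_ne {n : ℕ} (f : FreeSemigroup (Fin n) →₀ ℤ) (w : FreeSemigroup (Fin n))
    (hw : f w = 1 ∨ f w = -1) : polyF F f ≠ 0 := by
  intro h
  have h1 : (FreeAlgebra.basisFreeMonoid F (Fin n)).repr (polyF F f) (toFM w) = 0 := by
    rw [h]; simp
  unfold polyF at h1
  rw [LinearEquiv.apply_symm_apply, Finsupp.mapDomain_apply toFM_inj,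
    Finsupp.mapRange_apply] at h1
  rcases hw with hw | hw <;> rw [hw] at h1 <;> simp at h1

theorem lift_polyF {n : ℕ} (f : FreeSemigroup (Fin n) →₀ ℤ) (r : Fin n → R) :
    FreeAlgebra.lift F (fun i => emb F j (r i)) (polyF F f) =
      emb F j (f.sum fun w c => c • FreeSemigroup.lift r w) := by
  rw [lift_eq]
  unfold polyF
  rw [LinearEquiv.apply_symm_apply]
  have h1 := Finsupp.sum_mapDomain_index (f := toFM (n := n))
    (s := f.mapRange (fun c : ℤ => (c : F)) Int.cast_zero)
    (h := fun (w : FreeMonoid (Fin n)) (c : F) =>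
      c • (w.toList.map fun i => emb F j (r i)).prod) (by simp) (by
        intro w a b; rw [add_smul])
  rw [Finsupp.sum] at h1
  rw [h1, Finsupp.sum_mapRange_index (by simp)]
  simp only [prod_emb]
  unfold Finsupp.sum
  have h2 : ∀ (s : Finset (FreeSemigroup (Fin n))) (g : FreeSemigroup (Fin n) → R),
      emb F j (∑ w ∈ s, g w) = ∑ w ∈ s, emb F j (g w) := by
    classical
    intro s g
    induction s using Finset.induction_on with
    | empty => simp [emb_zero]
    | insert a s ha ih => rw [Finset.sum_insert ha, Finset.sum_insert ha, emb_add, ih]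
  rw [h2]
  apply Finset.sum_congr rfl
  intro w _
  rw [emb_zsmul]

/-- `1 ⊗ R` when it is a submodule -/
def imS (hdiv : ∀ (c : F) (x : R), ∃ y : R, c • emb F j x = emb F j y) :
    Submodule F (F ⊗[ℤ] A) where
  carrier := {x | ∃ r : R, x = emb F j r}
  add_mem' := by
    rintro _ _ ⟨r, rfl⟩ ⟨s, rfl⟩
    exact ⟨r + s, (emb_add F j r s).symm⟩
  zero_mem' := ⟨0, (emb_zero F j).symm⟩
  smul_mem' := by
    rintro c _ ⟨r, rfl⟩
    exact hdiv c r

theorem tensor_case (hPI : ∃ (n : ℕ) (f : FreeSemigroup (Fin n) →₀ ℤ), (∃ w, f w = 1 ∨ f w = -1) ∧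
      ∀ r : Fin n → R, (f.sum fun w c => c • FreeSemigroup.lift r w) = 0)
    (hR : AddSubgroup.closure {x : R | ∃ a b : R, x = a * b - b * a} = ⊤)
    (hdiv : ∀ (c : F) (x : R), ∃ y : R, c • emb F j x = emb F j y) (x : R) : emb F j x = 0 := by
  obtain ⟨n, f, ⟨w, hw⟩, hf⟩ := hPI
  have hS : ∀ x ∈ imS F j hdiv, ∀ y ∈ imS F j hdiv, x * y ∈ imS F j hdiv := by
    rintro _ ⟨r, rfl⟩ _ ⟨s, rfl⟩
    exact ⟨r * s, (emb_mul F j r s).symm⟩
  have hperf : imS F j hdiv ≤ Submodule.span F
      {x | ∃ a ∈ imS F j hdiv, ∃ b ∈ imS F j hdiv, x = a * b - b * a} := by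
    rintro _ ⟨r, rfl⟩
    have hr : r ∈ AddSubgroup.closure {x : R | ∃ a b : R, x = a * b - b * a} := by
      rw [hR]; trivial
    induction hr using AddSubgroup.closure_induction with
    | mem x h =>
      obtain ⟨a, b, rfl⟩ := h
      apply Submodule.subset_span
      refine ⟨emb F j a, ⟨a, rfl⟩, emb F j b, ⟨b, rfl⟩, ?_⟩
      rw [sub_eq_add_neg, emb_add, emb_neg, emb_mul, emb_mul, sub_eq_add_neg]
    | zero => rw [emb_zero]; exact Submodule.zero_mem _
    | add x y _ _ h1 h2 => rw [emb_add]; exact Submodule.add_mem _ h1 h2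
    | neg x _ h1 => rw [emb_neg]; exact Submodule.neg_mem _ h1
  obtain ⟨d, c, hc1, hc⟩ := linearise (imS F j hdiv) (polyF F f) (polyF_ne F f w hw) (by
    intro a ha
    have ha' : ∀ i, ∃ r : R, a i = emb F j r := ha
    choose r hr using ha'
    have h1 : a = fun i => emb F j (r i) := funext hr
    rw [h1, lift_polyF, hf r, emb_zero])
  have h := field_case hS hperf c hc1 hc
  have h1 : emb F j x ∈ imS F j hdiv := ⟨x, rfl⟩
  rw [h, Submodule.mem_bot] at h1
  exact h1

end

section prime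

variable {R : Type u} [NonUnitalRing R] {A : Type u} [Ring A] (j : R →ₙ+* A)

theorem hdiv_zmod (p : ℕ) [Fact p.Prime] (c : ZMod p) (x : R) :
    ∃ y : R, c • emb (ZMod p) j x = emb (ZMod p) j y := by
  obtain ⟨k, rfl⟩ := ZMod.intCast_surjective c
  exact ⟨k • x, (emb_zsmul (ZMod p) j k x).symm⟩

theorem ker_zmod (p : ℕ) [Fact p.Prime] (x : R) (h : emb (ZMod p) j x = 0) :
    ∃ y : A, j x = (p : ℤ) • y := by
  let N : AddSubgroup A := (zsmulAddGroupHom (p : ℤ)).range
  let _ : Module (ZMod p) (A ⧸ N) :=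
    QuotientAddGroup.zmodModule (fun y => ⟨y, by simp⟩)
  let g1 : ZMod p → A →+ (A ⧸ N) := fun c =>
    { toFun := fun a => c • (QuotientAddGroup.mk a : A ⧸ N)
      map_zero' := by simp
      map_add' := by intro a b; rw [QuotientAddGroup.mk_add, smul_add] }
  let g : ZMod p →ₗ[ℤ] A →ₗ[ℤ] (A ⧸ N) :=
    AddMonoidHom.toIntLinearMap
      { toFun := fun c => (g1 c).toIntLinearMap
        map_zero' := by
          apply LinearMap.ext
          intro a
          change (0 : ZMod p) • (QuotientAddGroup.mk a : A ⧸ N) = 0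
          exact zero_smul (ZMod p) (QuotientAddGroup.mk a : A ⧸ N)
        map_add' := by
          intro a b
          apply LinearMap.ext
          intro z
          change (a + b : ZMod p) • (QuotientAddGroup.mk z : A ⧸ N) =
            a • (QuotientAddGroup.mk z : A ⧸ N) + b • (QuotientAddGroup.mk z : A ⧸ N)
          exact add_smul a b (QuotientAddGroup.mk z : A ⧸ N) }
  have h1 : TensorProduct.lift g (emb (ZMod p) j x) =
      (QuotientAddGroup.mk (j x) : A ⧸ N) := by
    unfold emb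
    rw [TensorProduct.lift.tmul]
    change (1 : ZMod p) • (QuotientAddGroup.mk (j x) : A ⧸ N) = _
    exact one_smul (ZMod p) (QuotientAddGroup.mk (j x) : A ⧸ N)
  rw [h, map_zero, eq_comm, QuotientAddGroup.eq_zero_iff] at h1
  obtain ⟨z, hz⟩ := h1
  exact ⟨z, hz.symm⟩

theorem ker_rat (x : R) (h : emb ℚ j x = 0) : ∃ n : ℤ, n ≠ 0 ∧ n • j x = 0 := by
  have : IsLocalizedModule (nonZeroDivisors ℤ) (TensorProduct.mk ℤ ℚ A 1) :=
    (isLocalizedModule_iff_isBaseChange (nonZeroDivisors ℤ) ℚ _).2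
      (TensorProduct.isBaseChange ℤ A ℚ)
  have h1 : TensorProduct.mk ℤ ℚ A 1 (j x) = 0 := h
  rw [IsLocalizedModule.eq_zero_iff (nonZeroDivisors ℤ)] at h1
  obtain ⟨s, hs⟩ := h1
  exact ⟨s, nonZeroDivisors.ne_zero s.2, hs⟩

end prime

/-- the ring with a unit adjoined -/
def U (R : Type u) [NonUnitalRing R] : Type u := Unitization ℤ R

instance (R : Type u) [NonUnitalRing R] : Ring (U R) := inferInstanceAs (Ring (Unitization ℤ R))

/-- the embedding of `R` in the ring with a unit adjoined -/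
def jU (R : Type u) [NonUnitalRing R] : R →ₙ+* U R where
  toFun := fun x => (Unitization.inr x : Unitization ℤ R)
  map_mul' := fun a b => Unitization.inr_mul ℤ a b
  map_zero' := Unitization.inr_zero ℤ
  map_add' := fun a b => Unitization.inr_add ℤ a b

/-- the second component -/
def sndU (R : Type u) [NonUnitalRing R] : U R →+ R where
  toFun := fun x => (x : Unitization ℤ R).toProd.2
  map_zero' := rfl
  map_add' := fun _ _ => rfl

/-- **Lvov's problem.** -/
theorem lvov (R : Type u) [NonUnitalRing R]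
    (hPI : ∃ (n : ℕ) (f : FreeSemigroup (Fin n) →₀ ℤ), (∃ w, f w = 1 ∨ f w = -1) ∧
      ∀ r : Fin n → R, (f.sum fun w c => c • FreeSemigroup.lift r w) = 0)
    (hR : AddSubgroup.closure {x : R | ∃ a b : R, x = a * b - b * a} = ⊤) :
    ∀ x : R, x = 0 := by
  have hsnd : ∀ x : R, sndU R (jU R x) = x := fun x => rfl
  -- `R` is divisible by every prime
  have hp : ∀ p : ℕ, p.Prime → ∀ x : R, ∃ y : R, x = (p : ℤ) • y := by
    intro p hp x
    have : Fact p.Prime := ⟨hp⟩
    obtain ⟨y, hy⟩ := ker_zmod (jU R) p x (tensor_case (ZMod p) (jU R) hPI hR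
      (hdiv_zmod (jU R) p) x)
    refine ⟨sndU R y, ?_⟩
    rw [← map_zsmul, ← hy, hsnd]
  have hdiv : ∀ n : ℕ, n ≠ 0 → ∀ x : R, ∃ y : R, x = (n : ℤ) • y := by
    intro n
    induction n using Nat.recOnMul with
    | zero => intro h; exact absurd rfl h
    | one => intro _ x; exact ⟨x, by simp⟩
    | prime p h => intro _; exact hp p h
    | mul a b iha ihb =>
      intro h x
      rw [Nat.mul_ne_zero_iff] at h
      obtain ⟨y, hy⟩ := iha h.1 x
      obtain ⟨z, hz⟩ := ihb h.2 y
      refine ⟨z, ?_⟩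
      rw [hy, hz, smul_smul]
      push_cast
      rfl
  have hdivQ : ∀ (c : ℚ) (x : R), ∃ y : R, c • emb ℚ (jU R) x = emb ℚ (jU R) y := by
    intro c x
    obtain ⟨y, hy⟩ := hdiv c.den c.den_nz x
    refine ⟨c.num • y, ?_⟩
    rw [hy, emb_zsmul, emb_zsmul, smul_smul]
    congr 1
    have := Rat.mul_den_eq_num c
    exact_mod_cast this
  have htor : ∀ x : R, ∃ n : ℤ, n ≠ 0 ∧ n • x = 0 := by
    intro x
    obtain ⟨n, hn, h⟩ := ker_rat (jU R) x (tensor_case ℚ (jU R) hPI hR hdivQ x)
    refine ⟨n, hn, ?_⟩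
    have h1 := congrArg (sndU R) h
    rw [map_zsmul, hsnd, map_zero] at h1
    exact h1
  have hmul : ∀ x y : R, x * y = 0 := by
    intro x y
    obtain ⟨n, hn, hx⟩ := htor x
    obtain ⟨z, hz⟩ := hdiv n.natAbs (Int.natAbs_ne_zero.2 hn) y
    have h1 : (n.natAbs : ℤ) • x = 0 := by
      rcases Int.natAbs_eq n with h | h
      · rw [← h]; exact hx
      · have : (n.natAbs : ℤ) = -n := by omega
        rw [this, neg_smul, hx, neg_zero]
    rw [hz, mul_smul_comm, ← smul_mul_assoc, h1, zero_mul]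
  intro x
  have hx : x ∈ AddSubgroup.closure {x : R | ∃ a b : R, x = a * b - b * a} := by
    rw [hR]; trivial
  induction hx using AddSubgroup.closure_induction with
  | mem x h =>
    obtain ⟨a, b, rfl⟩ := h
    rw [hmul, hmul, sub_zero]
  | zero => rfl
  | add x y _ _ h1 h2 => rw [h1, h2, add_zero]
  | neg x _ h1 => rw [h1, neg_zero]

end Pool.Agent.Helper591.Lvov
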